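import Pool.Agent.N699.PP.Pat

set_option autoImplicit false

/-! Sign patterns of the Liouville function at random positions: almost all vectors of positions. -/

namespace Pool.Agent.N699.PP
open Finset
open Pool.Agent.H807R2.Dav
open Pool.Agent.H373R2.T7
open Pool.Agent.N699.RP
open Pool.Agent.N699.GC
open Pool.Agent.W93.TD (avg_w total_w)

/-- the patterns are equidistributed in all the intervals and progressions -/
def Gp {s : ℕ} (U N K Y : ℕ) (v : Fin s → ℕ) : Prop := ∀ κ q r a b : ℕ, 1 ≤ κ → κ ≤ K → 1 ≤ q → q ≤ K → r < q → a ≤ b → b ≤ Y →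
  ∀ ε : Fin s → ℝ, (∀ i, ε i = 1 ∨ ε i = -1) →
  |((((Ioc a b).filter fun x => x % q = r).filter fun x => ∀ i, li (x + κ * v i) = ε i).card : ℝ) -
    (((Ioc a b).filter fun x => x % q = r).card : ℝ) / 2 ^ s| ≤ N / Real.log N ^ U

open Classical in
theorem pattern_law (A B B1 U : ℕ) (hB : 1 ≤ B) (hB1 : 1 ≤ B1) : ∀ E : ℕ, ∃ N₀ : ℕ, ∀ N, N₀ ≤ N → ∀ (s : ℕ) (Ω : Fin s → Finset ℕ)
    (p : Fin s → ℕ → ℝ), (∀ i, Lw B E (2 * (4 * A + 3 * U + 4) + 2 * A + 1) N (Ω i) (p i)) → ∀ K : ℕ, 1 ≤ K → (K : ℝ) ≤ Real.log N ^ A →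
    ∑ v ∈ Fintype.piFinset Ω, (if Gp U N K (B1 * K * N) v then 0 else ∏ i, p i (v i)) ≤ 1 / Real.log N ^ U := by
  intro E
  obtain ⟨V, hV⟩ : ∃ V, V = 4 * A + 3 * U + 4 := ⟨_, rfl⟩
  rw [← hV]
  obtain ⟨n1, h1⟩ := one_li A B (2 * B1) E V hB (by omega)
  obtain ⟨n2, h2⟩ := ev_L' (16 * (B1 : ℝ) + 4)
  obtain ⟨n3, h3⟩ := log_small (U + 1) 2
  refine ⟨n1 + n2 + n3 + 3, fun N hN s Ω p hlaw K hK1 hK => ?_⟩
  have hp : ∀ i, ∀ u ∈ Ω i, 0 ≤ p i u := fun i => (hlaw i).1
  have hp1 : ∀ i, ∑ u ∈ Ω i, p i u = 1 := fun i => (hlaw i).2.1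
  have hN1 : 1 ≤ N := by omega
  have hN0 : (0 : ℝ) < N := by exact_mod_cast hN1
  have a2 := h2 N (by omega)
  have a3 := h3 N (by omega)
  have hone := fun i => h1 N (by omega) (Ω i) (p i) (hlaw i) K hK1 hK
  obtain ⟨L, hLd⟩ : ∃ L, L = Real.log (N : ℝ) := ⟨_, rfl⟩
  rw [← hLd] at a2 a3 hK hone ⊢
  have hB1r : (1 : ℝ) ≤ B1 := by exact_mod_cast hB1
  have hL1 : 1 ≤ L := by linarith
  have hL0 : 0 < L := by linarith
  have hKr : (1 : ℝ) ≤ K := by exact_mod_cast hK1
  have hLA : 1 ≤ L ^ A := one_le_pow₀ hL1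
  obtain ⟨D, hD⟩ : ∃ D, D = ⌊N / L ^ (U + 1)⌋₊ := ⟨_, rfl⟩
  have hq2 : 2 ≤ (N : ℝ) / L ^ (U + 1) := by
    rw [le_div_iff₀ (by positivity)]
    exact a3
  have hDle : (D : ℝ) ≤ N / L ^ (U + 1) := by rw [hD]; exact Nat.floor_le (by positivity)
  have hDge : (N : ℝ) / L ^ (U + 1) / 2 ≤ D := by
    have := Nat.lt_floor_add_one ((N : ℝ) / L ^ (U + 1))
    rw [← hD] at this
    linarith
  have hD1 : 1 ≤ D := by
    have : (1 : ℝ) ≤ D := by linarith
    exact_mod_cast this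
  have hD0 : (0 : ℝ) < D := by exact_mod_cast hD1
  obtain ⟨Y, hY⟩ : ∃ Y, Y = B1 * K * N := ⟨_, rfl⟩
  obtain ⟨R, hR⟩ : ∃ R, R = Y / D + 1 := ⟨_, rfl⟩
  have hRD : Y ≤ R * D := by
    rw [hR, add_mul, one_mul]
    have := Nat.div_add_mod Y D
    have := Nat.mod_lt Y (show D > 0 by omega)
    nlinarith
  have hDN : D ≤ N := by
    have : (D : ℝ) ≤ N := hDle.trans (div_le_self hN0.le (one_le_pow₀ hL1))
    exact_mod_cast this
  have hRD2 : R * D ≤ 2 * B1 * K * N := by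
    rw [hR, add_mul, one_mul]
    have e1 := Nat.div_mul_le_self Y D
    have e2 : N ≤ B1 * K * N := Nat.le_mul_of_pos_left _ (Nat.mul_pos hB1 hK1)
    calc Y / D * D + D ≤ B1 * K * N + B1 * K * N := by rw [← hY]; rw [← hY] at e2; omega
      _ = 2 * B1 * K * N := by ring
  have hRr : (R : ℝ) ≤ 4 * B1 * L ^ A * L ^ (U + 1) := by
    have e1 : ((Y / D : ℕ) : ℝ) ≤ (Y : ℝ) / D := Nat.cast_div_le
    have e2 : (Y : ℝ) / D ≤ 2 * B1 * K * L ^ (U + 1) := by
      rw [div_le_iff₀ hD0]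
      calc (Y : ℝ) = 2 * B1 * K * L ^ (U + 1) * (N / L ^ (U + 1) / 2) := by
            rw [hY]
            push_cast
            field_simp
        _ ≤ _ := mul_le_mul_of_nonneg_left hDge (by positivity)
    have e3 : (R : ℝ) = ((Y / D : ℕ) : ℝ) + 1 := by rw [hR]; push_cast; ring
    have e4 : 2 * B1 * (K : ℝ) * L ^ (U + 1) ≤ 2 * B1 * L ^ A * L ^ (U + 1) := by
      apply mul_le_mul_of_nonneg_right _ (by positivity)
      exact mul_le_mul_of_nonneg_left hK (by positivity)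
    have e5 : 1 ≤ 2 * B1 * L ^ A * L ^ (U + 1) := by
      have : 1 ≤ L ^ A * L ^ (U + 1) := one_le_mul_of_one_le_of_one_le hLA (one_le_pow₀ hL1)
      nlinarith
    rw [e3]
    linarith
  -- the sum of all the correlations
  obtain ⟨G, hGd⟩ : ∃ G : ℕ × ℕ × ℕ → ℕ → ℝ, G = fun x y => if y ∈ Ioc (x.2.2 * D) ((x.2.2 + 1) * D) ∧ y % x.1 = x.2.1 then 1 else 0 := ⟨_, rfl⟩
  have hG1 : ∀ x y, |G x y| ≤ 1 := by
    intro x y
    rw [hGd]
    simp only
    split_ifs <;> norm_num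
  obtain ⟨I, hI⟩ : ∃ I : Finset (ℕ × ℕ × ℕ × ℕ), I = Icc 1 K ×ˢ Icc 1 K ×ˢ range K ×ˢ range R := ⟨_, rfl⟩
  obtain ⟨S, hS⟩ : ∃ S : ℕ × ℕ × ℕ × ℕ → (Fin s → ℕ) → ℝ, S = fun x v => Z x.1 (R * D) (G x.2) v := ⟨_, rfl⟩
  have hSn : ∀ x v, 0 ≤ S x v := by
    intro x v
    rw [hS]
    exact Z_nonneg _ _ _ _
  have hw0 : ∀ v ∈ Fintype.piFinset Ω, 0 ≤ ∏ i, p i (v i) := fun v hv => prod_nonneg fun j _ => hp j _ (Fintype.mem_piFinset.1 hv j)
  have hmean : ∀ x ∈ I, ∑ v ∈ Fintype.piFinset Ω, (∏ i, p i (v i)) * S x v ≤ N / L ^ V := by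
    intro x hx
    rw [hI, mem_product, mem_Icc] at hx
    rw [hS]
    exact Z_mean (R * D) x.1 Ω p hp hp1 (N / L ^ V) (by positivity) (fun i G' hG' => hone i x.1 hx.1.1 hx.1.2 (R * D) (by
      calc R * D ≤ 2 * B1 * K * N := hRD2
        _ = _ := by ring) G' hG') (G x.2) (hG1 x.2)
  have htot : ∑ v ∈ Fintype.piFinset Ω, (∏ i, p i (v i)) * ∑ x ∈ I, S x v ≤ I.card * (N / L ^ V) := by
    have e1 : ∑ v ∈ Fintype.piFinset Ω, (∏ i, p i (v i)) * ∑ x ∈ I, S x v = ∑ x ∈ I, ∑ v ∈ Fintype.piFinset Ω, (∏ i, p i (v i)) * S x v := by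
      simp_rw [mul_sum]
      exact sum_comm
    rw [e1]
    refine (sum_le_sum hmean).trans ?_
    rw [sum_const, nsmul_eq_mul]
  have hIc : (I.card : ℝ) ≤ 4 * B1 * L ^ (4 * A + U + 1) := by
    rw [hI, card_product, card_product, card_product, Nat.card_Icc, card_range, card_range, Nat.add_sub_cancel]
    push_cast
    calc (K : ℝ) * (K * (K * R)) ≤ L ^ A * (L ^ A * (L ^ A * (4 * B1 * L ^ A * L ^ (U + 1)))) := by
          gcongr
      _ = 4 * B1 * L ^ (4 * A + U + 1) := by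
          rw [show 4 * A + U + 1 = A + A + A + A + (U + 1) by ring]
          simp only [pow_add]
          ring
  -- a vector with a small sum is good
  have hgood : ∀ v, ∑ x ∈ I, S x v ≤ N / L ^ (U + 1) → Gp U N K (B1 * K * N) v := by
    intro v hv κ q r a b hκ1 hκK hq1 hqK hr hab hb ε hε
    rw [← hLd]
    refine (pattern_count _ κ v ε hε).trans ?_
    have h5 : ∀ T : Finset (Fin s), |∑ x ∈ (Ioc a b).filter (fun x => x % q = r), ∏ i ∈ T, li (x + κ * v i)| ≤
        2 * (∑ m ∈ range R, |∑ x ∈ Icc 1 (R * D), G (q, r, m) x * ∏ i ∈ T, li (x + κ * v i)| + D) := by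
      intro T
      have h6 := intervalsR (fun x => if x % q = r then ∏ i ∈ T, li (x + κ * v i) else 0) (fun x => by
        split_ifs
        · rw [abs_prod]
          exact prod_le_one (fun _ _ => abs_nonneg _) fun _ _ => li_abs _
        · rw [abs_zero]; exact zero_le_one) D R hD1 a b hab (by rw [← hY] at hb; omega)
      rw [sum_filter]
      refine h6.trans (le_of_eq ?_)
      congr 2
      apply sum_congr rfl
      intro m hm
      rw [mem_range] at hm
      congr 1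
      rw [hGd]
      simp only [ite_mul, one_mul, zero_mul]
      rw [← sum_filter, ← sum_filter]
      apply sum_congr _ (fun _ _ => rfl)
      ext y
      rw [mem_filter, mem_filter, mem_Icc, mem_Ioc]
      have e1 : (m + 1) * D ≤ R * D := Nat.mul_le_mul_right _ (by omega)
      constructor
      · intro h; exact ⟨⟨by omega, by omega⟩, h⟩
      · intro h; exact h.2
    have h7 : (∑ T ∈ (univ : Finset (Fin s)).powerset.filter (fun T => T.Nonempty),
        |∑ x ∈ (Ioc a b).filter (fun x => x % q = r), ∏ i ∈ T, li (x + κ * v i)|) / 2 ^ s ≤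
        2 * (∑ m ∈ range R, Z κ (R * D) (G (q, r, m)) v + D) := by
      rw [div_le_iff₀ (by positivity)]
      refine (sum_le_sum fun T _ => h5 T).trans ?_
      rw [← mul_sum, sum_add_distrib, sum_const, nsmul_eq_mul, sum_comm]
      have e1 : ∑ m ∈ range R, ∑ T ∈ (univ : Finset (Fin s)).powerset.filter (fun T => T.Nonempty),
          |∑ x ∈ Icc 1 (R * D), G (q, r, m) x * ∏ i ∈ T, li (x + κ * v i)| = (∑ m ∈ range R, Z κ (R * D) (G (q, r, m)) v) * 2 ^ s := by
        rw [sum_mul]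
        apply sum_congr rfl
        intro m _
        unfold Z
        rw [div_mul_cancel₀ _ (by positivity)]
      rw [e1]
      have e2 : ((((univ : Finset (Fin s)).powerset.filter (fun S => S.Nonempty)).card : ℕ) : ℝ) ≤ 2 ^ s := by
        have e3 : ((univ : Finset (Fin s)).powerset.filter (fun S => S.Nonempty)).card ≤ 2 ^ s := by
          refine (card_filter_le _ _).trans ?_
          rw [card_powerset, card_univ, Fintype.card_fin]
        exact_mod_cast e3
      have e4 : ((((univ : Finset (Fin s)).powerset.filter (fun S => S.Nonempty)).card : ℕ) : ℝ) * D ≤ 2 ^ s * D :=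
        mul_le_mul_of_nonneg_right e2 hD0.le
      linarith
    refine h7.trans ?_
    have h6 : ∑ m ∈ range R, Z κ (R * D) (G (q, r, m)) v ≤ ∑ x ∈ I, S x v := by
      have e1 : ∑ m ∈ range R, Z κ (R * D) (G (q, r, m)) v = ∑ x ∈ (range R).image (fun m => (κ, q, r, m)), S x v := by
        rw [sum_image (fun a _ b _ h => by simpa using h), hS]
      rw [e1]
      apply sum_le_sum_of_subset_of_nonneg
      · intro x hx
        rw [mem_image] at hx
        obtain ⟨m, hm, rfl⟩ := hx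
        rw [hI, mem_product, mem_product, mem_product, mem_Icc, mem_Icc, mem_range]
        exact ⟨⟨hκ1, hκK⟩, ⟨hq1, hqK⟩, by simp only; omega, hm⟩
      · intro x _ _
        exact hSn x v
    have h8 : 2 * (N / L ^ (U + 1) + N / L ^ (U + 1)) ≤ N / L ^ U := by
      rw [pow_succ, le_div_iff₀ (by positivity)]
      have : 2 * (N / (L ^ U * L) + N / (L ^ U * L)) * L ^ U = 4 * N / L := by
        field_simp
        norm_num
      rw [this, div_le_iff₀ hL0]
      nlinarith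
    linarith [h6, hDle, hv]
  -- the inequality of Markov
  have hmark : ∑ v ∈ Fintype.piFinset Ω, (if Gp U N K (B1 * K * N) v then 0 else ∏ i, p i (v i)) ≤
      (∑ v ∈ Fintype.piFinset Ω, (∏ i, p i (v i)) * ∑ x ∈ I, S x v) * (L ^ (U + 1) / N) := by
    rw [sum_mul]
    apply sum_le_sum
    intro v hv
    have hs0 : 0 ≤ ∑ x ∈ I, S x v := sum_nonneg fun x _ => hSn x v
    have hp0 := hw0 v hv
    split_ifs with hg
    · positivity
    · have h8 : N / L ^ (U + 1) ≤ ∑ x ∈ I, S x v := by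
        by_contra hcon
        exact hg (hgood v (not_le.1 hcon).le)
      have h9 : 1 ≤ (∑ x ∈ I, S x v) * (L ^ (U + 1) / N) := by
        rw [div_le_iff₀ (by positivity)] at h8
        rw [← mul_div_assoc, le_div_iff₀ hN0, one_mul]
        exact h8
      calc ∏ i, p i (v i) = (∏ i, p i (v i)) * 1 := (mul_one _).symm
        _ ≤ (∏ i, p i (v i)) * ((∑ x ∈ I, S x v) * (L ^ (U + 1) / N)) := mul_le_mul_of_nonneg_left h9 hp0
        _ = _ := by ring
  refine hmark.trans ?_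
  calc (∑ v ∈ Fintype.piFinset Ω, (∏ i, p i (v i)) * ∑ x ∈ I, S x v) * (L ^ (U + 1) / N) ≤
      (4 * B1 * L ^ (4 * A + U + 1) * (N / L ^ V)) * (L ^ (U + 1) / N) := by
        apply mul_le_mul_of_nonneg_right _ (by positivity)
        exact htot.trans (mul_le_mul_of_nonneg_right hIc (by positivity))
    _ = 1 / L ^ U * (4 * B1 / L ^ 2) := by
        rw [hV, show 4 * A + 3 * U + 4 = (4 * A + U + 1) + (U + 1) + U + 2 by ring]
        rw [pow_add L ((4 * A + U + 1) + (U + 1) + U), pow_add L ((4 * A + U + 1) + (U + 1)), pow_add L (4 * A + U + 1) (U + 1)]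
        field_simp
    _ ≤ 1 / L ^ U * 1 := by
        apply mul_le_mul_of_nonneg_left _ (by positivity)
        rw [div_le_one (by positivity)]
        nlinarith
    _ = _ := mul_one _

end Pool.Agent.N699.PP
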