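import Pool.Agent.N699.GC.CorG
import Pool.Agent.N699.GC.Good
import Pool.Agent.W93.TD3

set_option autoImplicit false

/-! Sign patterns of the Liouville function at random positions: the correlations. -/

namespace Pool.Agent.N699.PP
open Finset
open Pool.Agent.H807R2.Dav
open Pool.Agent.H373R2.T7
open Pool.Agent.N699.RP
open Pool.Agent.N699.GC
open Pool.Agent.W93.TD (avg_w total_w)

/-- the Liouville function -/
noncomputable def li (n : ℕ) : ℝ := (-1 : ℝ) ^ (ArithmeticFunction.cardFactors n)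

lemma liR_li (n : ℕ) : liR n = ((li n : ℝ) : ℂ) := by
  unfold liR li
  push_cast
  rfl

lemma li_cases (n : ℕ) : li n = 1 ∨ li n = -1 := by
  unfold li
  exact neg_one_pow_eq_or ℝ _

lemma li_abs (n : ℕ) : |li n| ≤ 1 := by
  rcases li_cases n with h | h <;> rw [h] <;> norm_num

/-- one coordinate -/
theorem one_li (A B B1 E V : ℕ) (hB : 1 ≤ B) (hB1 : 1 ≤ B1) : ∃ N₀ : ℕ, ∀ N, N₀ ≤ N → ∀ (Ω : Finset ℕ) (p : ℕ → ℝ),
    Lw B E (2 * V + 2 * A + 1) N Ω p → ∀ K : ℕ, 1 ≤ K → (K : ℝ) ≤ Real.log N ^ A → ∀ κ : ℕ, 1 ≤ κ → κ ≤ K →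
    ∀ Y : ℕ, Y ≤ B1 * K * N → ∀ G : ℕ → ℝ, (∀ n, |G n| ≤ 1) →
    ∑ v ∈ Ω, p v * |∑ n ∈ Icc 1 Y, G n * li (n + κ * v)| ≤ N / Real.log N ^ V := by
  obtain ⟨n1, h1⟩ := corr_gen liR liR_norm sup_liou A B B1 E V hB hB1
  refine ⟨n1 + 1, fun N hN Ω p hlaw K hK1 hK κ hκ1 hκK Y hY G hG => ?_⟩
  have h2 := h1 N (by omega) Ω p hlaw K hK1 hK κ 0 hκ1 hκK (Nat.zero_le _) Y hY (fun n => ((G n : ℝ) : ℂ)) (fun n => by
    rw [Complex.norm_real, Real.norm_eq_abs]
    exact hG n)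
  obtain ⟨hp, hp1, -, -⟩ := hlaw
  apply cs_prob Ω p hp hp1 _ _ (by positivity)
  refine le_trans (le_of_eq ?_) h2
  apply sum_congr rfl
  intro v _
  congr 2
  rw [← Real.norm_eq_abs, ← Complex.norm_real]
  congr 1
  push_cast
  apply sum_congr rfl
  intro n _
  rw [liR_li, zero_add]

variable {s : ℕ}

/-- the correlation of a nonempty set of coordinates -/
lemma corr_set (Y κ : ℕ) (Ω : Fin s → Finset ℕ) (p : Fin s → ℕ → ℝ) (hp : ∀ i, ∀ u ∈ Ω i, 0 ≤ p i u)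
    (hp1 : ∀ i, ∑ u ∈ Ω i, p i u = 1) (β : ℝ)
    (hone : ∀ i, ∀ G : ℕ → ℝ, (∀ x, |G x| ≤ 1) → ∑ u ∈ Ω i, p i u * |∑ x ∈ Icc 1 Y, G x * li (x + κ * u)| ≤ β)
    (G : ℕ → ℝ) (hG : ∀ x, |G x| ≤ 1) (S : Finset (Fin s)) (hS : S.Nonempty) :
    ∑ v ∈ Fintype.piFinset Ω, (∏ i, p i (v i)) * |∑ x ∈ Icc 1 Y, G x * ∏ i ∈ S, li (x + κ * v i)| ≤ β := by
  obtain ⟨i, hi⟩ := hS
  rw [← avg_w Ω p hp1 i (fun v => |∑ x ∈ Icc 1 Y, G x * ∏ i ∈ S, li (x + κ * v i)|)]
  have h1 : ∀ v ∈ Fintype.piFinset Ω, (∏ i, p i (v i)) * ∑ u ∈ Ω i, p i u * |∑ x ∈ Icc 1 Y, G x * ∏ j ∈ S, li (x + κ * Function.update v i u j)| ≤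
      (∏ i, p i (v i)) * β := by
    intro v hv
    apply mul_le_mul_of_nonneg_left _ (prod_nonneg fun j _ => hp j _ (Fintype.mem_piFinset.1 hv j))
    refine le_trans (le_of_eq ?_) (hone i (fun x => G x * ∏ j ∈ S.erase i, li (x + κ * v j)) (fun x => by
      rw [abs_mul, abs_prod]
      exact mul_le_one₀ (hG x) (prod_nonneg fun _ _ => abs_nonneg _) (prod_le_one (fun _ _ => abs_nonneg _) fun _ _ => li_abs _)))
    apply sum_congr rfl
    intro u _
    congr 2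
    apply sum_congr rfl
    intro x _
    rw [← mul_prod_erase S _ hi, Function.update_self, mul_assoc]
    congr 1
    rw [mul_comm]
    congr 1
    apply prod_congr rfl
    intro j hj
    rw [Function.update_of_ne (ne_of_mem_erase hj)]
  refine (sum_le_sum h1).trans (le_of_eq ?_)
  rw [← sum_mul, total_w Ω p hp1, one_mul]

/-- the mean of all the correlations -/
noncomputable def Z (κ Y : ℕ) (G : ℕ → ℝ) (v : Fin s → ℕ) : ℝ :=
  (∑ S ∈ (univ : Finset (Fin s)).powerset.filter (fun S => S.Nonempty), |∑ x ∈ Icc 1 Y, G x * ∏ i ∈ S, li (x + κ * v i)|) / 2 ^ s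

lemma Z_nonneg (κ Y : ℕ) (G : ℕ → ℝ) (v : Fin s → ℕ) : 0 ≤ Z κ Y G v :=
  div_nonneg (sum_nonneg fun _ _ => abs_nonneg _) (by positivity)

lemma Z_mean (Y κ : ℕ) (Ω : Fin s → Finset ℕ) (p : Fin s → ℕ → ℝ) (hp : ∀ i, ∀ u ∈ Ω i, 0 ≤ p i u)
    (hp1 : ∀ i, ∑ u ∈ Ω i, p i u = 1) (β : ℝ) (hβ : 0 ≤ β)
    (hone : ∀ i, ∀ G : ℕ → ℝ, (∀ x, |G x| ≤ 1) → ∑ u ∈ Ω i, p i u * |∑ x ∈ Icc 1 Y, G x * li (x + κ * u)| ≤ β)
    (G : ℕ → ℝ) (hG : ∀ x, |G x| ≤ 1) :
    ∑ v ∈ Fintype.piFinset Ω, (∏ i, p i (v i)) * Z κ Y G v ≤ β := by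
  have h1 : ∑ v ∈ Fintype.piFinset Ω, (∏ i, p i (v i)) * Z κ Y G v =
      (∑ S ∈ (univ : Finset (Fin s)).powerset.filter (fun S => S.Nonempty),
        ∑ v ∈ Fintype.piFinset Ω, (∏ i, p i (v i)) * |∑ x ∈ Icc 1 Y, G x * ∏ i ∈ S, li (x + κ * v i)|) / 2 ^ s := by
    rw [sum_comm, sum_div]
    apply sum_congr rfl
    intro v _
    unfold Z
    rw [← mul_sum, mul_div_assoc]
  rw [h1, div_le_iff₀ (by positivity)]
  refine (sum_le_sum fun S hS => corr_set Y κ Ω p hp hp1 β hone G hG S (mem_filter.1 hS).2).trans ?_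
  rw [sum_const, nsmul_eq_mul, mul_comm]
  apply mul_le_mul_of_nonneg_left _ hβ
  have h2 : ((univ : Finset (Fin s)).powerset.filter (fun S => S.Nonempty)).card ≤ 2 ^ s := by
    refine (card_filter_le _ _).trans ?_
    rw [card_powerset, card_univ, Fintype.card_fin]
  exact_mod_cast h2

/-- the frequency of a pattern -/
lemma pattern_count (T : Finset ℕ) (κ : ℕ) (v : Fin s → ℕ) (ε : Fin s → ℝ) (hε : ∀ i, ε i = 1 ∨ ε i = -1) :
    |((T.filter fun x => ∀ i, li (x + κ * v i) = ε i).card : ℝ) - (T.card : ℝ) / 2 ^ s| ≤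
      (∑ S ∈ (univ : Finset (Fin s)).powerset.filter (fun S => S.Nonempty), |∑ x ∈ T, ∏ i ∈ S, li (x + κ * v i)|) / 2 ^ s := by
  have h1 : ((T.filter fun x => ∀ i, li (x + κ * v i) = ε i).card : ℝ) =
      ∑ x ∈ T, (∏ i, (1 + ε i * li (x + κ * v i))) / 2 ^ s := by
    rw [card_filter]
    push_cast
    apply sum_congr rfl
    intro x _
    split_ifs with h
    · have h2 : ∀ i ∈ (univ : Finset (Fin s)), 1 + ε i * li (x + κ * v i) = 2 := by
        intro i _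
        rw [h i]
        rcases hε i with e | e <;> rw [e] <;> norm_num
      rw [prod_congr rfl h2, prod_const, card_univ, Fintype.card_fin, div_self (by positivity)]
    · push Not at h
      obtain ⟨i, hi⟩ := h
      have h2 : 1 + ε i * li (x + κ * v i) = 0 := by
        rcases li_cases (x + κ * v i) with e | e <;> rcases hε i with e' | e'
        · exact absurd (e.trans e'.symm) hi
        · rw [e, e']; norm_num
        · rw [e, e']; norm_num
        · exact absurd (e.trans e'.symm) hi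
      rw [prod_eq_zero (mem_univ i) h2, zero_div]
  have h3 : ∀ x, (∏ i, (1 + ε i * li (x + κ * v i))) =
      1 + ∑ S ∈ (univ : Finset (Fin s)).powerset.filter (fun S => S.Nonempty), (∏ i ∈ S, ε i) * ∏ i ∈ S, li (x + κ * v i) := by
    intro x
    rw [prod_one_add]
    have h4 := sum_filter_add_sum_filter_not (univ : Finset (Fin s)).powerset (fun S => S.Nonempty) (fun S => ∏ i ∈ S, ε i * li (x + κ * v i))
    rw [← h4]
    have h5 : (univ : Finset (Fin s)).powerset.filter (fun S => ¬ S.Nonempty) = {∅} := by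
      ext S
      rw [mem_filter, mem_singleton, not_nonempty_iff_eq_empty]
      constructor
      · intro h; exact h.2
      · intro h; rw [h]; exact ⟨empty_mem_powerset _, rfl⟩
    rw [h5, sum_singleton, prod_empty, add_comm]
    congr 1
    apply sum_congr rfl
    intro S _
    rw [prod_mul_distrib]
  have h6 : ((T.filter fun x => ∀ i, li (x + κ * v i) = ε i).card : ℝ) - (T.card : ℝ) / 2 ^ s =
      (∑ S ∈ (univ : Finset (Fin s)).powerset.filter (fun S => S.Nonempty), (∏ i ∈ S, ε i) * ∑ x ∈ T, ∏ i ∈ S, li (x + κ * v i)) / 2 ^ s := by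
    rw [h1, ← sum_div, ← sub_div]
    congr 1
    rw [sum_congr rfl fun x _ => h3 x, sum_add_distrib, sum_const, nsmul_eq_mul, mul_one, add_sub_cancel_left, sum_comm]
    apply sum_congr rfl
    intro S _
    rw [mul_sum]
  rw [h6, abs_div, abs_of_pos (by positivity : (0 : ℝ) < 2 ^ s)]
  apply div_le_div_of_nonneg_right _ (by positivity)
  refine (abs_sum_le_sum_abs _ _).trans (sum_le_sum fun S _ => ?_)
  rw [abs_mul, abs_prod]
  have h7 : ∏ i ∈ S, |ε i| ≤ 1 := prod_le_one (fun _ _ => abs_nonneg _) fun i _ => by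
    rcases hε i with e | e <;> rw [e] <;> norm_num
  calc (∏ i ∈ S, |ε i|) * |∑ x ∈ T, ∏ i ∈ S, li (x + κ * v i)| ≤ 1 * |∑ x ∈ T, ∏ i ∈ S, li (x + κ * v i)| :=
        mul_le_mul_of_nonneg_right h7 (abs_nonneg _)
    _ = _ := one_mul _

/-- intervals from blocks -/
lemma intervalsR (f : ℕ → ℝ) (hf : ∀ n, |f n| ≤ 1) (D R : ℕ) (hD : 1 ≤ D) (a b : ℕ) (hab : a ≤ b) (hb : b ≤ R * D) :
    |∑ y ∈ Ioc a b, f y| ≤ 2 * (∑ m ∈ range R, |∑ y ∈ Ioc (m * D) ((m + 1) * D), f y| + D) := by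
  have h1 := intervals (fun n => ((f n : ℝ) : ℂ)) (fun n => by
    rw [Complex.norm_real, Real.norm_eq_abs]
    exact hf n) D R hD a b hab hb
  have h2 : ∀ a b : ℕ, ‖∑ y ∈ Ioc a b, ((f y : ℝ) : ℂ)‖ = |∑ y ∈ Ioc a b, f y| := by
    intro a b
    rw [← Complex.ofReal_sum, Complex.norm_real, Real.norm_eq_abs]
  simp only [h2] at h1
  exact h1

end Pool.Agent.N699.PP
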